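import Pool.Agent.D0H73.OP.Stm

/-! # Project OP, module CMP: comparison with an exact character -/

set_option autoImplicit false

open Finset
open scoped BigOperators

namespace Pool.Agent.D0H63.OP

open Pool.Agent.D0H73.OP Pool.Agent.V1192 Pool.Agent.V1192.GA
open Pool.Agent.V1192.UOD (V)

noncomputable section

theorem chr_zero {p : ℕ} [Fact p.Prime] {N : ℕ} (u : V p N) : chr u 0 = 1 := by
  simp [chr]

theorem chr_add {p : ℕ} [Fact p.Prime] {N : ℕ} (u v v' : V p N) :
    chr u (v + v') = chr u v * chr u v' := by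
  unfold chr
  rw [← AddChar.map_add_eq_mul, ← Finset.sum_add_distrib]
  simp [mul_add]

theorem norm_chr {p : ℕ} [Fact p.Prime] {N : ℕ} (u v : V p N) : ‖chr u v‖ = 1 := by
  unfold chr
  exact AddChar.norm_apply _ _

section

variable {p : ℕ} [Fact p.Prime] {N : ℕ → ℕ} {n : ℕ}

theorem prod_two (d : (i : Fin n) → V p (N i) → ℕ) (g : H p N n) (K K1 : Fin n) (k : ℕ)
    (hK : (K : ℕ) = k) (hK1 : (K1 : ℕ) = k + 1) (s : Fin n → ℂ)
    (h1 : ∀ i : Fin n, (i : ℕ) < k → s i = 1) (h0 : ∀ i : Fin n, k + 1 < (i : ℕ) → s i = 0)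
    [Decidable (∀ i : Fin n, k + 1 < (i : ℕ) → d i (g i) = 0)] :
    ∏ i, s i ^ d i (g i) = if (∀ i : Fin n, k + 1 < (i : ℕ) → d i (g i) = 0)
      then s K ^ d K (g K) * s K1 ^ d K1 (g K1) else 0 := by
  split_ifs with h
  · refine Finset.prod_eq_mul K K1 ?_ ?_ ?_ ?_
    · intro e; rw [e] at hK; omega
    · rintro c - ⟨hc, hc1⟩
      rcases lt_trichotomy (c : ℕ) k with h' | h' | h'
      · rw [h1 c h', one_pow]
      · exact absurd (Fin.ext (h'.trans hK.symm)) hc
      · have : (c : ℕ) ≠ k + 1 := fun e => hc1 (Fin.ext (e.trans hK1.symm))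
        rw [h c (by omega), pow_zero]
    · intro h; exact absurd (mem_univ _) h
    · intro h; exact absurd (mem_univ _) h
  · push Not at h
    obtain ⟨i, hi, hd⟩ := h
    exact Finset.prod_eq_zero (mem_univ i) (by rw [h0 i hi, zero_pow hd])

end

theorem split_sum {G W : Type} [Fintype G] [Fintype W] [DecidableEq W] (κ : G → W) (δ : G → ℕ)
    (M : ℕ) (hM : ∀ g, δ g < M) (B : G → ℂ) (φ : W → ℂ) (ζ : ℂ) :
    ∑ g, B g * φ (κ g) * ζ ^ δ g = ∑ j : Fin M, ζ ^ (j : ℕ) *
      ∑ v, (∑ g, if κ g = v ∧ δ g = (j : ℕ) then B g else 0) * φ v := by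
  have e : ∀ j : Fin M, ζ ^ (j : ℕ) * ∑ v, (∑ g, if κ g = v ∧ δ g = (j : ℕ) then B g else 0) * φ v
      = ∑ g, ∑ v, ζ ^ (j : ℕ) * ((if κ g = v ∧ δ g = (j : ℕ) then B g else 0) * φ v) := by
    intro j
    rw [Finset.sum_comm, Finset.mul_sum]
    refine sum_congr rfl fun v _ => ?_
    rw [Finset.sum_mul, Finset.mul_sum]
  rw [sum_congr rfl fun j _ => e j, Finset.sum_comm]
  refine sum_congr rfl fun g _ => ?_
  rw [Finset.sum_eq_single (⟨δ g, hM g⟩ : Fin M), Finset.sum_eq_single (κ g)]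
  · simp; ring
  · intro v _ hv
    rw [if_neg (fun h => hv h.1.symm)]; simp
  · intro h; exact absurd (mem_univ _) h
  · intro j _ hj
    refine sum_eq_zero fun v _ => ?_
    rw [if_neg (fun h => hj (Fin.ext h.2.symm))]; simp
  · intro h; exact absurd (mem_univ _) h

section

variable {p : ℕ} [Fact p.Prime] {N : ℕ → ℕ} {n : ℕ}

theorem Ex_ind (i : Fin n) (P : H p N n → Prop) [DecidablePred P] :
    ∃ e : ℝ, 0 ≤ e ∧ Ex i (fun g => if P g then (1 : ℂ) else 0) = (e : ℂ) := by
  have hp : (1 : ℝ) ≤ p := by exact_mod_cast (Fact.out : p.Prime).one_lt.le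
  refine ⟨(1 / ((N i : ℝ) * ((p : ℝ) - 1))) * ∑ j : Fin (N i),
    ∑ a ∈ (univ : Finset (ZMod p)).erase 0,
      (if P (Pi.single i (Pi.single j a)) then (1 : ℝ) else 0), ?_, ?_⟩
  · refine mul_nonneg (div_nonneg zero_le_one (mul_nonneg (Nat.cast_nonneg _) (by linarith))) ?_
    refine sum_nonneg fun j _ => sum_nonneg fun a _ => ?_
    split_ifs <;> norm_num
  · unfold Ex
    push_cast
    congr 1
    refine sum_congr rfl fun j _ => sum_congr rfl fun a _ => ?_
    split_ifs <;> simp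

end

theorem t_CMP : S_CONC → S_NUM → S_AAF → S_VAL → S_CMP := by
  classical
  intro hC hN hA hV p _ N l x y d m hN0 D k χ hkl hχ r hr hr'
  obtain ⟨hw, hτ, -, -, -, -⟩ := hN p
  obtain ⟨hA1, hA2, hA3, hA4⟩ := hA p N (l + 2) hN0
  obtain ⟨K, hK⟩ : ∃ K : Fin (l + 2), (K : ℕ) = k := ⟨⟨k, by omega⟩, rfl⟩
  obtain ⟨K1, hK1⟩ : ∃ K : Fin (l + 2), (K : ℕ) = k + 1 := ⟨⟨k + 1, by omega⟩, rfl⟩
  have hp : (1 : ℝ) ≤ p := by exact_mod_cast (Fact.out : p.Prime).one_lt.le
  have hwk := hw k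
  have hwk1 := hw (k + 1)
  obtain ⟨q, hq⟩ : ∃ q : ℝ, q = -r / w p k := ⟨_, rfl⟩
  have hqb : |q| ≤ 1 / (8 * p) := by
    rw [hq, abs_div, abs_neg, abs_of_pos hwk.1, div_le_iff₀ hwk.1]
    calc |r| ≤ w p k / (8 * p) := hr'
      _ = 1 / (8 * p) * w p k := by ring
  have hrq : (r : ℂ) = - (w p k : ℂ) * (q : ℂ) := by
    have : r = - w p k * q := by
      rw [hq]; field_simp [hwk.1.ne']
    rw [this]; push_cast; ring
  have hq12 : ‖(q : ℂ)‖ ≤ 1 / 2 := by
    rw [Complex.norm_real, Real.norm_eq_abs]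
    refine hqb.trans ?_
    rw [div_le_div_iff₀ (by positivity) (by norm_num)]; nlinarith
  -- a bound for `d K1`
  obtain ⟨M, hM⟩ : ∃ M : ℕ, ∀ v, d K1 v < M :=
    ⟨(univ.sup (d K1)) + 1, fun v => Nat.lt_succ_of_le (Finset.le_sup (mem_univ v))⟩
  obtain ⟨B, hB⟩ : ∃ B : H p N (l + 2) → ℂ, B = fun g =>
    if (∀ i : Fin (l + 2), k + 1 < (i : ℕ) → d i (g i) = 0) then x g * χ g else 0 := ⟨_, rfl⟩
  have hBn : ∀ g, ‖B g‖ ≤ ‖x g‖ := by
    intro g
    rw [hB]
    simp only
    split_ifs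
    · rw [norm_mul, hχ.norm, mul_one]
    · rw [norm_zero]; exact norm_nonneg _
  obtain ⟨fN, hfN⟩ : ∃ fN : V p (N K) → ℂ, fN = fun v => (w p k : ℂ) *
    ((1 / ((N K : ℂ) * ((p : ℂ) - 1))) * ∑ j : Fin (N K),
      ∑ a ∈ (univ : Finset (ZMod p)).erase 0, if (Pi.single j a : V p (N K)) = v then (1 : ℂ) else 0) :=
    ⟨_, rfl⟩
  obtain ⟨f, hf⟩ : ∃ f : Option (Fin M) → V p (N K) → ℂ, f = fun o => o.elim fN
    (fun j v => ∑ g, if g K = v ∧ d K1 (g K1) = (j : ℕ) then B g else 0) := ⟨_, rfl⟩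
  obtain ⟨c, hc⟩ : ∃ c : Option (Fin M) → ℝ, c = fun o => o.elim 1 (fun j => (1 / 2) ^ (j : ℕ)) :=
    ⟨_, rfl⟩
  have hc0 : ∀ i, 0 ≤ c i := by
    intro i
    rw [hc]
    cases i with
    | none => simp
    | some j => simp
  have hfb : ∀ i v, ‖f i v‖ ≤ m K v := by
    intro i v
    rw [hf]
    cases i with
    | none =>
      simp only [Option.elim_none]
      obtain ⟨F, hF⟩ : ∃ F : H p N (l + 2) → ℂ, F = fun g => if g K = v then (1 : ℂ) else 0 := ⟨_, rfl⟩
      have h1 : fN v = (w p k : ℂ) * Ex K F := by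
        rw [hfN, hF]
        simp only [Ex]
        congr 2
        refine sum_congr rfl fun j _ => sum_congr rfl fun a _ => ?_
        rw [Pi.single_eq_same]
      have h2 : ∀ i : Fin (l + 2), ∃ e : ℝ, 0 ≤ e ∧ Ex i F = (e : ℂ) := by
        intro i
        rw [hF]
        exact Ex_ind i (fun g => g K = v)
      choose e he0 he using h2
      have h3 : ap aa F = ((∑ i : Fin (l + 2), w p i * e i : ℝ) : ℂ) := by
        rw [hA1 F]
        push_cast
        exact sum_congr rfl fun i _ => by rw [he i]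
      have h4 : ‖fN v‖ = w p k * e K := by
        rw [h1, he K, norm_mul, Complex.norm_real, Complex.norm_real, Real.norm_eq_abs,
          Real.norm_eq_abs, abs_of_pos hwk.1, abs_of_nonneg (he0 K)]
      have h5 : w p k * e K ≤ ∑ i : Fin (l + 2), w p i * e i := by
        have := Finset.single_le_sum (f := fun i : Fin (l + 2) => w p i * e i)
          (fun i _ => mul_nonneg (hw i).1.le (he0 i)) (mem_univ K)
        simpa [hK] using this
      have h6 : ‖ap aa F‖ = ∑ i : Fin (l + 2), w p i * e i := by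
        rw [h3, Complex.norm_real, Real.norm_eq_abs, abs_of_nonneg]
        exact sum_nonneg fun i _ => mul_nonneg (hw i).1.le (he0 i)
      have h7 : ‖ap aa F‖ ≤ m K v := by
        refine le_trans ?_ (D.ma K v)
        rw [Finset.sum_filter]
        unfold ap
        refine (norm_sum_le _ _).trans (sum_le_sum fun g _ => ?_)
        rw [norm_mul, hF]
        simp only
        split_ifs
        · simp
        · simp
      rw [h4]
      exact h5.trans (h6 ▸ h7)
    | some j =>
      simp only [Option.elim_some]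
      refine le_trans ?_ (D.mx K v)
      rw [Finset.sum_filter]
      refine (norm_sum_le _ _).trans (sum_le_sum fun g _ => ?_)
      by_cases h : g K = v
      · rw [if_pos h]
        split_ifs
        · exact hBn g
        · rw [norm_zero]; exact norm_nonneg _
      · rw [if_neg h, if_neg (fun h' => h h'.1), norm_zero]
  have hm0 : ∀ v, 0 ≤ m K v := fun v => (norm_nonneg _).trans (hfb none v)
  have hpkg : Pkg (m K) (tau p k) (d K) := by
    have := D.pkg K
    have e : tau p (K : ℕ) = tau p k := by rw [hK]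
    rw [e] at this
    exact this
  obtain ⟨u, hu⟩ := hC p (N K) (m K) 16 (tau p k) (d K) (by norm_num) (hτ k).1 (hτ k).2.1
    hpkg hm0 (D.msym K) (D.mtot K) q hqb (Option (Fin M)) f c hc0 hfb
  have hsq : Real.sqrt (tau p k) = w p (k + 1) ^ 2 / 10 ^ 5 := by
    have : tau p k = (w p (k + 1) ^ 2 / 10 ^ 5) ^ 2 := by
      unfold tau; ring
    rw [this, Real.sqrt_sq (by positivity)]
  have hcs : ∑ i, c i ≤ 3 := by
    rw [Fintype.sum_option, hc]
    simp only [Option.elim_none, Option.elim_some]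
    have := sum_geometric_two_le M
    rw [← Fin.sum_univ_eq_sum_range (fun i => (1 / (2 : ℝ)) ^ i)] at this
    linarith
  have hu' : ∑ i, c i * ‖∑ v, f i v * (chr u v - (q : ℂ) ^ d K v)‖
      ≤ 144 * (w p (k + 1) ^ 2 / 10 ^ 5) := by
    refine hu.trans ?_
    rw [hsq]
    have h0 : 0 ≤ w p (k + 1) ^ 2 / 10 ^ 5 := by positivity
    nlinarith
  rw [Fintype.sum_option] at hu'
  have hcN : c none = 1 := by rw [hc]; rfl
  have hcS : ∀ j, c (some j) = (1 / 2) ^ (j : ℕ) := by intro j; rw [hc]; rfl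
  have hfN' : f none = fN := by rw [hf]; rfl
  have hfS : ∀ j v, f (some j) v = ∑ g, if g K = v ∧ d K1 (g K1) = (j : ℕ) then B g else 0 := by
    intro j v; rw [hf]; rfl
  have hS0 : 0 ≤ ∑ j : Fin M, c (some j) * ‖∑ v, f (some j) v * (chr u v - (q : ℂ) ^ d K v)‖ :=
    sum_nonneg fun j _ => mul_nonneg (hc0 _) (norm_nonneg _)
  have hX : ‖∑ v, fN v * (chr u v - (q : ℂ) ^ d K v)‖ ≤ 144 * (w p (k + 1) ^ 2 / 10 ^ 5) := by
    rw [hcN, hfN', one_mul] at hu'
    linarith
  have hY : ∑ j : Fin M, c (some j) * ‖∑ v, f (some j) v * (chr u v - (q : ℂ) ^ d K v)‖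
      ≤ 144 * (w p (k + 1) ^ 2 / 10 ^ 5) := by
    have : 0 ≤ c none * ‖∑ v, f none v * (chr u v - (q : ℂ) ^ d K v)‖ :=
      mul_nonneg (hc0 _) (norm_nonneg _)
    linarith
  -- the new character
  obtain ⟨χ', hχ'⟩ : ∃ χ' : H p N (l + 2) → ℂ, χ' = fun g => χ g * chr u (g K) := ⟨_, rfl⟩
  have hI : IsChr (k + 1) χ' := by
    refine ⟨?_, ?_, ?_⟩
    · intro g h
      rw [hχ']
      simp only [Pi.add_apply, chr_add, hχ.add]
      ring
    · intro g
      rw [hχ']
      simp only [norm_mul, hχ.norm, norm_chr, mul_one]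
    · intro g hg
      rw [hχ']
      simp only
      rw [hχ.triv g (fun i hi => hg i (by omega)), hg K (by omega), chr_zero, mul_one]
  have hEi : ∀ i : Fin (l + 2), (i : ℕ) < k → Ex i χ' = Ex i χ := by
    intro i hi
    unfold Ex
    congr 1
    refine sum_congr rfl fun j _ => sum_congr rfl fun a _ => ?_
    rw [hχ']
    simp only
    rw [Pi.single_eq_of_ne (fun e => by rw [← e] at hi; omega), chr_zero, mul_one]
  have htriv : ∀ v : V p (N K), χ (Pi.single K v) = 1 := by
    intro v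
    refine hχ.triv _ fun i hi => ?_
    rw [Pi.single_eq_of_ne (fun e => by rw [e] at hi; omega)]
  have hEK : Ex K χ' = (1 / ((N K : ℂ) * ((p : ℂ) - 1))) *
      ∑ j : Fin (N K), ∑ a ∈ (univ : Finset (ZMod p)).erase 0, chr u (Pi.single j a) := by
    unfold Ex
    congr 1
    refine sum_congr rfl fun j _ => sum_congr rfl fun a _ => ?_
    rw [hχ']
    simp only
    rw [htriv, one_mul, Pi.single_eq_same]
  have hs1 : ∀ i : Fin (l + 2), (i : ℕ) < k → sv k (q : ℂ) 0 i = 1 := by
    intro i hi; unfold sv; rw [if_pos hi]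
  have hsK : sv k (q : ℂ) 0 K = q := by
    unfold sv; rw [if_neg (by omega), if_pos hK]
  have hs2 : ∀ i : Fin (l + 2), k ≤ (i : ℕ) → ‖sv k (q : ℂ) 0 i‖ ≤ 1 / 2 := by
    intro i hi
    unfold sv
    rw [if_neg (by omega)]
    split_ifs
    · exact hq12
    · simp
    · simp
  have hVal := (hV p N (l + 2) d m (fun i => tau p i) k χ (sv k (q : ℂ) 0) hN0 D.pkg hχ hs1 hs2).1 K
    (by omega)
  have hEP : Ex K (Ph d χ (sv k (q : ℂ) 0)) = (1 / ((N K : ℂ) * ((p : ℂ) - 1))) *
      ∑ j : Fin (N K), ∑ a ∈ (univ : Finset (ZMod p)).erase 0, (q : ℂ) ^ d K (Pi.single j a) := by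
    unfold Ex
    congr 1
    refine sum_congr rfl fun j _ => sum_congr rfl fun a _ => ?_
    unfold Ph
    rw [htriv, one_mul, Finset.prod_eq_single K, hsK, Pi.single_eq_same]
    · intro i _ hi
      rw [Pi.single_eq_of_ne hi, (D.pkg i).zero, pow_zero]
    · intro h; exact absurd (mem_univ _) h
  have hXe : ∑ v, fN v * (chr u v - (q : ℂ) ^ d K v)
      = (w p k : ℂ) * (Ex K χ' - Ex K (Ph d χ (sv k (q : ℂ) 0))) := by
    rw [hEK, hEP, ← mul_sub, ← Finset.sum_sub_distrib]
    rw [hfN]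
    simp only
    have e1 : ∀ v : V p (N K), (w p k : ℂ) *
        ((1 / ((N K : ℂ) * ((p : ℂ) - 1))) * ∑ j : Fin (N K),
          ∑ a ∈ (univ : Finset (ZMod p)).erase 0,
            if (Pi.single j a : V p (N K)) = v then (1 : ℂ) else 0) * (chr u v - (q : ℂ) ^ d K v)
        = (w p k : ℂ) * ((1 / ((N K : ℂ) * ((p : ℂ) - 1))) * ∑ j : Fin (N K),
          ∑ a ∈ (univ : Finset (ZMod p)).erase 0,
            (if (Pi.single j a : V p (N K)) = v then (1 : ℂ) else 0)
              * (chr u v - (q : ℂ) ^ d K v)) := by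
      intro v
      rw [mul_assoc, mul_assoc, Finset.sum_mul]
      congr 2
      refine sum_congr rfl fun j _ => ?_
      rw [Finset.sum_mul]
    rw [sum_congr rfl fun v _ => e1 v, ← Finset.mul_sum, ← Finset.mul_sum, Finset.sum_comm]
    congr 2
    refine sum_congr rfl fun j _ => ?_
    rw [Finset.sum_comm, ← Finset.sum_sub_distrib]
    refine sum_congr rfl fun a _ => ?_
    rw [Finset.sum_eq_single (Pi.single j a : V p (N K))]
    · rw [if_pos rfl, one_mul]
    · intro v _ hv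
      rw [if_neg (fun e => hv e.symm), zero_mul]
    · intro h; exact absurd (mem_univ _) h
  have htt : tt (k + 1) χ' = (r : ℂ) + (w p k : ℂ) * Ex K χ' := by
    rw [← hr]
    unfold tt
    have hins : univ.filter (fun i : Fin (l + 2) => (i : ℕ) < k + 1)
        = insert K (univ.filter (fun i : Fin (l + 2) => (i : ℕ) < k)) := by
      ext i
      simp only [mem_filter, mem_univ, true_and, mem_insert]
      constructor
      · intro h
        by_cases h' : (i : ℕ) = k
        · left; exact Fin.ext (h'.trans hK.symm)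
        · right; omega
      · rintro (h | h)
        · rw [h]; omega
        · omega
    rw [hins, Finset.sum_insert (by simp [hK]), hK, add_comm]
    congr 1
    refine sum_congr rfl fun i hi => ?_
    rw [hEi i (by simpa using hi)]
  have htt2 : tt (k + 1) χ' = ∑ v, fN v * (chr u v - (q : ℂ) ^ d K v)
      + (w p k : ℂ) * (Ex K (Ph d χ (sv k (q : ℂ) 0)) - (q : ℂ)) := by
    rw [htt, hXe, hrq]; ring
  refine ⟨χ', hI, ?_, ?_⟩
  · have hre : ∃ r' : ℝ, tt (k + 1) χ' = (r' : ℂ) := by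
      have : ∀ i : Fin (l + 2), ∃ e : ℝ, Ex i χ' = (e : ℂ) := fun i =>
        hA4 i χ' hI.add hI.norm
      choose e he using this
      refine ⟨∑ i ∈ univ.filter (fun i : Fin (l + 2) => (i : ℕ) < k + 1), w p i * e i, ?_⟩
      unfold tt
      push_cast
      exact sum_congr rfl fun i _ => by rw [he i]
    obtain ⟨r', hr1⟩ := hre
    refine ⟨r', hr1, ?_⟩
    have h1 : |r'| = ‖tt (k + 1) χ'‖ := by
      rw [hr1, Complex.norm_real, Real.norm_eq_abs]
    rw [h1, htt2]
    have h2 : ‖(w p k : ℂ) * (Ex K (Ph d χ (sv k (q : ℂ) 0)) - (q : ℂ))‖ ≤ 2 * tau p k := by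
      rw [norm_mul, Complex.norm_real, Real.norm_eq_abs, abs_of_pos hwk.1]
      have h3 : ‖Ex K (Ph d χ (sv k (q : ℂ) 0)) - (q : ℂ)‖ ≤ 2 * tau p k := by
        rw [hsK, hK] at hVal
        exact hVal
      calc w p k * ‖Ex K (Ph d χ (sv k (q : ℂ) 0)) - (q : ℂ)‖
          ≤ 1 * (2 * tau p k) := mul_le_mul hwk.2.1 h3 (norm_nonneg _) zero_le_one
        _ = _ := one_mul _
    refine (norm_add_le _ _).trans ((add_le_add hX h2).trans ?_)
    have hw1 : w p (k + 1) ≤ 1 / (1000 * p) := by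
      show w p k ^ 2 / (1000 * p) ≤ _
      refine div_le_div_of_nonneg_right ?_ (by positivity)
      nlinarith [hwk.1, hwk.2.1]
    have h0 := hwk1.1
    have h10 := hwk1.2.1
    unfold tau
    have hb : w p (k + 1) ^ 2 ≤ w p (k + 1) * (1 / (1000 * p)) := by
      rw [pow_two]; exact mul_le_mul_of_nonneg_left hw1 h0.le
    have hc4 : w p (k + 1) ^ 4 ≤ w p (k + 1) ^ 2 := by
      apply pow_le_pow_of_le_one h0.le h10; norm_num
    have he : w p (k + 1) / (8 * p) = 125 * (w p (k + 1) * (1 / (1000 * p))) := by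
      field_simp; norm_num
    rw [he]
    have h2' : 0 ≤ w p (k + 1) * (1 / (1000 * p)) := by positivity
    linarith
  · intro ζ hζ
    rw [← hq]
    have hd : ap x (Ph d χ' (sv (k + 1) ζ 0)) - ap x (Ph d χ (sv k (q : ℂ) ζ))
        = ∑ g, B g * (chr u (g K) - (q : ℂ) ^ d K (g K)) * ζ ^ d K1 (g K1) := by
      unfold ap
      rw [← Finset.sum_sub_distrib]
      refine sum_congr rfl fun g _ => ?_
      unfold Ph
      rw [prod_two d g K K1 k hK hK1 (sv (k + 1) ζ 0)
          (fun i hi => by unfold sv; rw [if_pos (by omega)])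
          (fun i hi => by
            unfold sv
            rw [if_neg (by omega), if_neg (by omega)]
            split_ifs <;> rfl),
        prod_two d g K K1 k hK hK1 (sv k (q : ℂ) ζ)
          (fun i hi => by unfold sv; rw [if_pos hi])
          (fun i hi => by
            unfold sv
            rw [if_neg (by omega), if_neg (by omega), if_neg (by omega)])]
      have a1 : sv (k + 1) ζ 0 K = 1 := by unfold sv; rw [if_pos (by omega)]
      have a2 : sv (k + 1) ζ 0 K1 = ζ := by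
        unfold sv; rw [if_neg (by omega), if_pos (by omega)]
      have a3 : sv k (q : ℂ) ζ K = q := by
        unfold sv; rw [if_neg (by omega), if_pos hK]
      have a4 : sv k (q : ℂ) ζ K1 = ζ := by
        unfold sv; rw [if_neg (by omega), if_neg (by omega), if_pos hK1]
      rw [a1, a2, a3, a4, hB, hχ']
      simp only
      split_ifs
      · ring
      · ring
    rw [hd, split_sum (fun g : H p N (l + 2) => g K) (fun g => d K1 (g K1)) M
      (fun g => hM _) B (fun v => chr u v - (q : ℂ) ^ d K v) ζ]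
    refine (norm_sum_le _ _).trans ?_
    calc ∑ j : Fin M, ‖ζ ^ (j : ℕ) * ∑ v, (∑ g, if g K = v ∧ d K1 (g K1) = (j : ℕ) then B g else 0)
            * (chr u v - (q : ℂ) ^ d K v)‖
        ≤ ∑ j : Fin M, c (some j) * ‖∑ v, f (some j) v * (chr u v - (q : ℂ) ^ d K v)‖ := by
          refine sum_le_sum fun j _ => ?_
          rw [norm_mul, norm_pow, hcS]
          simp only [hfS]
          exact mul_le_mul_of_nonneg_right (pow_le_pow_left₀ (norm_nonneg _) hζ _)
            (norm_nonneg _)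
      _ ≤ 144 * (w p (k + 1) ^ 2 / 10 ^ 5) := hY
      _ ≤ w p (k + 1) ^ 2 / 100 := by
          have : 0 ≤ w p (k + 1) ^ 2 := by positivity
          linarith

end

end Pool.Agent.D0H63.OP
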